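import Mathlib

/-!
Exponential growth of sequences of real numbers.
-/

set_option autoImplicit false

namespace Pool.Agent.U476.Gr

open Filter Topology
open scoped Real

/-- the sequence grows at most with the rate `g` -/
def UB (f : ℕ → ℝ) (g : ℝ) : Prop :=
  ∀ ε : ℝ, 0 < ε → ∀ᶠ N : ℕ in atTop, f N ≤ Real.exp (N * ((g + ε) / (2 * π)))

/-- the sequence grows at least with the rate `g` -/
def LB (f : ℕ → ℝ) (g : ℝ) : Prop :=
  ∀ ε : ℝ, 0 < ε → ∀ᶠ N : ℕ in atTop, Real.exp (N * ((g - ε) / (2 * π))) ≤ f N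

lemma poly_le {ε : ℝ} (hε : 0 < ε) (C : ℝ) (d : ℕ) :
    ∀ᶠ N : ℕ in atTop, C * (N : ℝ) ^ d ≤ Real.exp (N * ε) := by
  have h1 : Tendsto (fun x : ℝ => x ^ d * Real.exp (-ε * x)) atTop (𝓝 0) := by
    have := tendsto_rpow_mul_exp_neg_mul_atTop_nhds_zero d ε hε
    refine this.congr' ?_
    filter_upwards with x
    rw [Real.rpow_natCast]
  have h2 : Tendsto (fun N : ℕ => C * ((N : ℝ) ^ d * Real.exp (-ε * N))) atTop (𝓝 (C * 0)) :=
    (h1.comp tendsto_natCast_atTop_atTop).const_mul C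
  rw [mul_zero] at h2
  filter_upwards [h2.eventually (gt_mem_nhds (show (0 : ℝ) < 1 by norm_num))] with N hN
  have h3 : Real.exp (-ε * N) = (Real.exp (N * ε))⁻¹ := by
    rw [← Real.exp_neg]
    congr 1
    ring
  rw [h3, ← mul_assoc, ← div_eq_mul_inv, div_lt_one (Real.exp_pos _)] at hN
  exact hN.le

lemma UB.mono {f h : ℕ → ℝ} {g : ℝ} (hh : UB h g) (hle : ∀ᶠ N in atTop, f N ≤ h N) : UB f g := by
  intro ε hε
  filter_upwards [hh ε hε, hle] with N h1 h2
  exact h2.trans h1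

lemma UB.rate {f : ℕ → ℝ} {g g' : ℝ} (hf : UB f g) (h : g ≤ g') : UB f g' := by
  intro ε hε
  filter_upwards [hf ε hε] with N h1
  refine h1.trans (Real.exp_le_exp.2 ?_)
  have hpi := Real.pi_pos
  gcongr

lemma LB.mono {f h : ℕ → ℝ} {g : ℝ} (hf : LB f g) (hle : ∀ᶠ N in atTop, f N ≤ h N) : LB h g := by
  intro ε hε
  filter_upwards [hf ε hε, hle] with N h1 h2
  exact h1.trans h2

lemma UB.poly (C : ℝ) (d : ℕ) : UB (fun N => C * (N : ℝ) ^ d) 0 := by
  intro ε hε
  have hpi := Real.pi_pos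
  filter_upwards [poly_le (ε := ε / (2 * π)) (by positivity) C d] with N h1
  rwa [zero_add]

lemma UB.mul {f h : ℕ → ℝ} {g k : ℝ} (hf : UB f g) (hh : UB h k)
    (hh0 : ∀ N, 0 ≤ h N) : UB (fun N => f N * h N) (g + k) := by
  intro ε hε
  filter_upwards [hf (ε / 2) (by positivity), hh (ε / 2) (by positivity)] with N h1 h2
  have e : Real.exp (N * ((g + k + ε) / (2 * π))) = Real.exp (N * ((g + ε / 2) / (2 * π))) *
      Real.exp (N * ((k + ε / 2) / (2 * π))) := by
    rw [← Real.exp_add]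
    congr 1
    ring
  rw [e]
  exact mul_le_mul h1 h2 (hh0 N) (Real.exp_pos _).le

lemma UB.pow {f : ℕ → ℝ} {g : ℝ} (hf : UB f g) (hf0 : ∀ N, 0 ≤ f N) (n : ℕ) :
    UB (fun N => f N ^ n) (n * g) := by
  intro ε hε
  have hpi := Real.pi_pos
  have hn : (0 : ℝ) < n + 1 := by positivity
  filter_upwards [hf (ε / (n + 1)) (by positivity)] with N h1
  refine (pow_le_pow_left₀ (hf0 N) h1 n).trans ?_
  rw [← Real.exp_nat_mul]
  refine Real.exp_le_exp.2 ?_
  have e : (n : ℝ) * (N * ((g + ε / (n + 1)) / (2 * π))) =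
      N * ((n * g + n * (ε / (n + 1))) / (2 * π)) := by ring
  rw [e]
  have h2 : (n : ℝ) * (ε / (n + 1)) ≤ ε := by
    rw [← mul_div_assoc, div_le_iff₀ hn]
    nlinarith
  gcongr

lemma LB.pow {f : ℕ → ℝ} {g : ℝ} (hf : LB f g) (n : ℕ) :
    LB (fun N => f N ^ n) (n * g) := by
  intro ε hε
  have hpi := Real.pi_pos
  have hn : (0 : ℝ) < n + 1 := by positivity
  filter_upwards [hf (ε / (n + 1)) (by positivity)] with N h1
  refine le_trans ?_ (pow_le_pow_left₀ (Real.exp_pos _).le h1 n)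
  rw [← Real.exp_nat_mul]
  refine Real.exp_le_exp.2 ?_
  have e : (n : ℝ) * (N * ((g - ε / (n + 1)) / (2 * π))) =
      N * ((n * g - n * (ε / (n + 1))) / (2 * π)) := by ring
  rw [e]
  have h2 : (n : ℝ) * (ε / (n + 1)) ≤ ε := by
    rw [← mul_div_assoc, div_le_iff₀ hn]
    nlinarith
  gcongr

/-- division -/
lemma LB.div {f h r : ℕ → ℝ} {c b : ℝ} (hh : LB h c) (hr : UB r b) (hr0 : ∀ᶠ N in atTop, 0 < r N)
    (hle : ∀ᶠ N in atTop, h N ≤ r N * f N) : LB f (c - b) := by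
  intro ε hε
  filter_upwards [hh (ε / 2) (by positivity), hr (ε / 2) (by positivity), hr0, hle]
    with N h1 h2 h3 h4
  have e : Real.exp (N * ((c - ε / 2) / (2 * π))) = Real.exp (N * ((c - b - ε) / (2 * π))) *
      Real.exp (N * ((b + ε / 2) / (2 * π))) := by
    rw [← Real.exp_add]
    congr 1
    ring
  have h5 : Real.exp (N * ((c - b - ε) / (2 * π))) * r N ≤ f N * r N := by
    calc Real.exp (N * ((c - b - ε) / (2 * π))) * r N
        ≤ Real.exp (N * ((c - b - ε) / (2 * π))) * Real.exp (N * ((b + ε / 2) / (2 * π))) :=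
          mul_le_mul_of_nonneg_left h2 (Real.exp_pos _).le
      _ = Real.exp (N * ((c - ε / 2) / (2 * π))) := e.symm
      _ ≤ r N * f N := h1.trans h4
      _ = f N * r N := mul_comm _ _
  exact le_of_mul_le_mul_right h5 h3

/-- polynomials may be added to an upper bound -/
lemma UB.add_poly {f : ℕ → ℝ} {g : ℝ} (hf : UB f g) (hg : 0 ≤ g) (C : ℝ) (d : ℕ) :
    UB (fun N => f N + C * (N : ℝ) ^ d) g := by
  intro ε hε
  have hpi := Real.pi_pos
  filter_upwards [hf (ε / 2) (by positivity), UB.poly C d (ε / 2) (by positivity),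
    poly_le (ε := ε / 2 / (2 * π)) (by positivity) 2 0] with N h1 h2 h3
  have e : Real.exp (N * ((g + ε) / (2 * π))) = Real.exp (N * ((g + ε / 2) / (2 * π))) *
      Real.exp (N * (ε / 2 / (2 * π))) := by
    rw [← Real.exp_add]
    congr 1
    ring
  have h4 : Real.exp (N * ((0 + ε / 2) / (2 * π))) ≤ Real.exp (N * ((g + ε / 2) / (2 * π))) := by
    refine Real.exp_le_exp.2 ?_
    gcongr
  rw [e]
  calc f N + C * (N : ℝ) ^ d ≤ Real.exp (N * ((g + ε / 2) / (2 * π))) +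
        Real.exp (N * ((g + ε / 2) / (2 * π))) := add_le_add h1 (h2.trans h4)
    _ = Real.exp (N * ((g + ε / 2) / (2 * π))) * (2 * (N : ℝ) ^ 0) := by ring
    _ ≤ _ := mul_le_mul_of_nonneg_left h3 (Real.exp_pos _).le

/-- polynomials may be subtracted from a lower bound with a positive rate -/
lemma LB.sub_poly {f h : ℕ → ℝ} {g : ℝ} (hf : LB f g) (hg : 0 < g) (C : ℝ) (d : ℕ)
    (hle : ∀ᶠ N in atTop, f N ≤ h N + C * (N : ℝ) ^ d) : LB h g := by
  intro ε hε
  have hpi := Real.pi_pos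
  set δ := min (ε / 2) (g / 2) with hδ
  have h0 : 0 < δ := lt_min (by positivity) (by positivity)
  have h1 : δ ≤ ε / 2 := min_le_left _ _
  have h2 : δ ≤ g / 2 := min_le_right _ _
  have h3 : 0 < g - δ := by linarith
  filter_upwards [hf δ h0, hle, poly_le (ε := (g - δ) / (2 * π)) (by positivity) (2 * C) d,
    poly_le (ε := δ / (2 * π)) (by positivity) 2 0] with N k1 k2 k3 k4
  have e : Real.exp (N * ((g - δ) / (2 * π))) = Real.exp (N * ((g - 2 * δ) / (2 * π))) *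
      Real.exp (N * (δ / (2 * π))) := by
    rw [← Real.exp_add]
    congr 1
    ring
  have k5 : 2 * Real.exp (N * ((g - 2 * δ) / (2 * π))) ≤ Real.exp (N * ((g - δ) / (2 * π))) := by
    rw [e, mul_comm (2 : ℝ)]
    refine mul_le_mul_of_nonneg_left ?_ (Real.exp_pos _).le
    simpa using k4
  have k6 : Real.exp (N * ((g - ε) / (2 * π))) ≤ Real.exp (N * ((g - 2 * δ) / (2 * π))) := by
    refine Real.exp_le_exp.2 ?_
    have : g - ε ≤ g - 2 * δ := by linarith
    gcongr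
  linarith

lemma UB.log {f : ℕ → ℝ} {g : ℝ} (hf : UB f g) (hf0 : ∀ N, 0 ≤ f N) (hg : 0 ≤ g) {ε : ℝ}
    (hε : 0 < ε) : ∀ᶠ N : ℕ in atTop, 2 * π * (Real.log (f N) / N) ≤ g + ε := by
  have hpi := Real.pi_pos
  filter_upwards [hf ε hε, eventually_gt_atTop 0] with N h1 h2
  have hN : (0 : ℝ) < N := by exact_mod_cast h2
  rcases (hf0 N).eq_or_lt with h3 | h3
  · rw [← h3, Real.log_zero, zero_div, mul_zero]
    linarith
  · have h4 := (Real.log_le_iff_le_exp h3).2 h1
    have h5 : 2 * π * (Real.log (f N) / N) ≤ 2 * π * (N * ((g + ε) / (2 * π)) / N) := by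
      gcongr
    refine h5.trans (le_of_eq ?_)
    field_simp

lemma LB.log {f : ℕ → ℝ} {g : ℝ} (hf : LB f g) {ε : ℝ}
    (hε : 0 < ε) : ∀ᶠ N : ℕ in atTop, g - ε ≤ 2 * π * (Real.log (f N) / N) := by
  have hpi := Real.pi_pos
  filter_upwards [hf ε hε, eventually_gt_atTop 0] with N h1 h2
  have hN : (0 : ℝ) < N := by exact_mod_cast h2
  have h3 : 0 < f N := (Real.exp_pos _).trans_le h1
  have h4 := (Real.le_log_iff_exp_le h3).2 h1
  have h5 : 2 * π * (N * ((g - ε) / (2 * π)) / N) ≤ 2 * π * (Real.log (f N) / N) := by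
    gcongr
  refine le_trans (le_of_eq ?_) h5
  field_simp

lemma UB.of_tendsto {f : ℕ → ℝ} {g : ℝ} (hf0 : ∀ N, 0 ≤ f N)
    (h : Tendsto (fun N : ℕ => 2 * π * (Real.log (f N) / N)) atTop (𝓝 g)) : UB f g := by
  intro ε hε
  have hpi := Real.pi_pos
  filter_upwards [h.eventually (gt_mem_nhds (show g < g + ε by linarith)), eventually_gt_atTop 0]
    with N h1 h2
  have hN : (0 : ℝ) < N := by exact_mod_cast h2
  rcases (hf0 N).eq_or_lt with h3 | h3
  · rw [← h3]
    exact (Real.exp_pos _).le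
  · rw [← Real.log_le_iff_le_exp h3]
    have h4 := mul_le_mul_of_nonneg_left h1.le (show 0 ≤ (N : ℝ) / (2 * π) by positivity)
    have e1 : (N : ℝ) / (2 * π) * (2 * π * (Real.log (f N) / N)) = Real.log (f N) := by
      field_simp
    rw [e1] at h4
    refine h4.trans (le_of_eq ?_)
    ring

lemma LB.of_tendsto {f : ℕ → ℝ} {g : ℝ} (hf0 : ∀ N, 0 ≤ f N) (hg : 0 < g)
    (h : Tendsto (fun N : ℕ => 2 * π * (Real.log (f N) / N)) atTop (𝓝 g)) : LB f g := by
  intro ε hε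
  have hpi := Real.pi_pos
  filter_upwards [h.eventually (lt_mem_nhds (show g - ε < g by linarith)),
    h.eventually (lt_mem_nhds hg), eventually_gt_atTop 0] with N h1 h5 h2
  have hN : (0 : ℝ) < N := by exact_mod_cast h2
  rcases (hf0 N).eq_or_lt with h3 | h3
  · rw [← h3, Real.log_zero, zero_div, mul_zero] at h5
    exact absurd h5 (lt_irrefl _)
  · rw [← Real.le_log_iff_exp_le h3]
    have h4 := mul_le_mul_of_nonneg_left h1.le (show 0 ≤ (N : ℝ) / (2 * π) by positivity)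
    have e1 : (N : ℝ) / (2 * π) * (2 * π * (Real.log (f N) / N)) = Real.log (f N) := by
      field_simp
    rw [e1] at h4
    refine le_trans (le_of_eq ?_) h4
    ring

lemma UB.of_log {f : ℕ → ℝ} {g : ℝ} (hf0 : ∀ N, 0 ≤ f N)
    (h : ∀ ε : ℝ, 0 < ε → ∀ᶠ N : ℕ in atTop, 2 * π * (Real.log (f N) / N) ≤ g + ε) : UB f g := by
  intro ε hε
  have hpi := Real.pi_pos
  filter_upwards [h ε hε, eventually_gt_atTop 0] with N h1 h2
  have hN : (0 : ℝ) < N := by exact_mod_cast h2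
  rcases (hf0 N).eq_or_lt with h3 | h3
  · rw [← h3]
    exact (Real.exp_pos _).le
  · rw [← Real.log_le_iff_le_exp h3]
    have h4 := mul_le_mul_of_nonneg_left h1 (show 0 ≤ (N : ℝ) / (2 * π) by positivity)
    have e1 : (N : ℝ) / (2 * π) * (2 * π * (Real.log (f N) / N)) = Real.log (f N) := by
      field_simp
    rw [e1] at h4
    refine h4.trans (le_of_eq ?_)
    ring

lemma UB.root {f : ℕ → ℝ} {g : ℝ} {n : ℕ} (hn : n ≠ 0) (h : UB (fun N => f N ^ n) (n * g)) :
    UB f g := by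
  intro ε hε
  have hn0 : (0 : ℝ) < n := by exact_mod_cast Nat.pos_of_ne_zero hn
  filter_upwards [h (n * ε) (by positivity)] with N h1
  have e : Real.exp (N * ((n * g + n * ε) / (2 * π))) =
      Real.exp (N * ((g + ε) / (2 * π))) ^ n := by
    rw [← Real.exp_nat_mul]
    congr 1
    ring
  rw [e] at h1
  exact le_of_pow_le_pow_left₀ hn (Real.exp_pos _).le h1

lemma LB.root {f : ℕ → ℝ} {g : ℝ} {n : ℕ} (hn : n ≠ 0) (hf0 : ∀ N, 0 ≤ f N)
    (h : LB (fun N => f N ^ n) (n * g)) : LB f g := by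
  intro ε hε
  have hn0 : (0 : ℝ) < n := by exact_mod_cast Nat.pos_of_ne_zero hn
  filter_upwards [h (n * ε) (by positivity)] with N h1
  have e : Real.exp (N * ((n * g - n * ε) / (2 * π))) =
      Real.exp (N * ((g - ε) / (2 * π))) ^ n := by
    rw [← Real.exp_nat_mul]
    congr 1
    ring
  rw [e] at h1
  exact le_of_pow_le_pow_left₀ hn (hf0 N) h1

lemma tendsto_of {f : ℕ → ℝ} {g : ℝ} (hg : 0 ≤ g) (hf0 : ∀ N, 0 ≤ f N) (h1 : UB f g)
    (h2 : LB f g) : Tendsto (fun N : ℕ => 2 * π * (Real.log (f N) / N)) atTop (𝓝 g) := by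
  rw [Metric.tendsto_atTop]
  intro ε hε
  have h3 := (h1.log hf0 hg (ε := ε / 2) (by positivity)).and (h2.log (ε := ε / 2) (by positivity))
  obtain ⟨n, hn⟩ := eventually_atTop.1 h3
  refine ⟨n, fun N hN => ?_⟩
  obtain ⟨h4, h5⟩ := hn N hN
  rw [Real.dist_eq, abs_lt]
  constructor <;> linarith

lemma LB.of_log {f : ℕ → ℝ} {g : ℝ} (hf0 : ∀ N, 0 ≤ f N) (hg : 0 < g)
    (h : ∀ ε : ℝ, 0 < ε → ∀ᶠ N : ℕ in atTop, g - ε ≤ 2 * π * (Real.log (f N) / N)) : LB f g := by
  intro ε hε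
  have hpi := Real.pi_pos
  filter_upwards [h ε hε, h (g / 2) (by positivity), eventually_gt_atTop 0] with N h1 h5 h2
  have hN : (0 : ℝ) < N := by exact_mod_cast h2
  rcases (hf0 N).eq_or_lt with h3 | h3
  · rw [← h3, Real.log_zero, zero_div, mul_zero] at h5
    linarith
  · rw [← Real.le_log_iff_exp_le h3]
    have h4 := mul_le_mul_of_nonneg_left h1 (show 0 ≤ (N : ℝ) / (2 * π) by positivity)
    have e1 : (N : ℝ) / (2 * π) * (2 * π * (Real.log (f N) / N)) = Real.log (f N) := by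
      field_simp
    rw [e1] at h4
    refine le_trans (le_of_eq ?_) h4
    ring

end Pool.Agent.U476.Gr
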