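import Pool.Agent.R807.HolderLim
import Pool.Agent.U476.Growth

/-!
Insertions of 3-braids: two-sided inequalities.
-/

set_option autoImplicit false

namespace Pool.Agent.U476.Ins

open Matrix Finset Filter Topology Pool.Agent.H550R3.Jones
open Pool.Agent.W715.VC Pool.Agent.R807.Holder
open scoped Real

variable {N : ℕ}

/-- words on three strands -/
abbrev Wd (w : List (ℕ × Bool)) : Prop := ∀ l ∈ w, l.1 < 2

lemma Wd.append {u w : List (ℕ × Bool)} (hu : Wd u) (hw : Wd w) : Wd (u ++ w) := by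
  intro l hl
  rcases List.mem_append.1 hl with h | h
  exacts [hu l h, hw l h]

lemma Wd.dual (w : List (ℕ × Bool)) : Wd (dual w) := by
  intro l hl
  unfold Pool.Agent.W715.VC.dual at hl
  rw [List.mem_reverse, List.mem_map] at hl
  obtain ⟨a, -, rfl⟩ := hl
  unfold dl
  dsimp only
  omega

lemma Wd.inv {w : List (ℕ × Bool)} (hw : Wd w) : Wd (winv w) := by
  intro l hl
  unfold winv at hl
  rw [List.mem_reverse, List.mem_map] at hl
  obtain ⟨a, ha, rfl⟩ := hl
  exact hw a ha

lemma Wd.pow {w : List (ℕ × Bool)} (hw : Wd w) (n : ℕ) : Wd (wpow w n) := by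
  intro l hl
  unfold wpow at hl
  rw [List.mem_flatten] at hl
  obtain ⟨s, hs, hl⟩ := hl
  rw [List.eq_of_mem_replicate hs] at hl
  exact hw l hl

lemma dual_append (u w : List (ℕ × Bool)) : dual (u ++ w) = dual w ++ dual u := by
  simp [Pool.Agent.W715.VC.dual]

lemma dual_dual {w : List (ℕ × Bool)} (hw : Wd w) : dual (dual w) = w := by
  unfold Pool.Agent.W715.VC.dual
  rw [List.map_reverse, List.reverse_reverse, List.map_map]
  conv_rhs => rw [← List.map_id w]
  refine List.map_congr_left fun l hl => ?_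
  have := hw l hl
  unfold dl
  obtain ⟨k, b⟩ := l
  simp only at this
  simp only [Function.comp_apply, Bool.not_not, id]
  have : 1 - (1 - k) = k := by omega
  rw [this]

/-- the bound depends only on the operator -/
lemma tau_congr (hN : 0 < N) {u w : List (ℕ × Bool)} (hu : Wd u) (hw : Wd w)
    (h : rep3 N u = rep3 N w) : tau N u = tau N w := by
  unfold tau
  rw [rep3_append, rep3_append, ← hadj_rep3 hN hu, ← hadj_rep3 hN hw, h]

lemma tau_dual {w : List (ℕ × Bool)} (hw : Wd w) : tau N (dual w) = tau N w := by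
  unfold tau
  rw [dual_dual hw, rep3_append, Matrix.trace_mul_comm, ← rep3_append]

lemma tau_mul (hN : 0 < N) {u w : List (ℕ × Bool)} (hu : Wd u) (hw : Wd w) :
    tau N (u ++ w) ≤ 2 * (N : ℝ) ^ 3 * (tau N u * tau N w) := by
  have h1 : (u ++ w) ++ dual (u ++ w) =
      ([u, w, dual w, dual u] : List (List (ℕ × Bool))).flatten := by
    rw [dual_append]
    simp only [List.flatten_cons, List.flatten_nil, List.append_nil, List.append_assoc]
  have h2 := holder hN (ws := [u, w, dual w, dual u]) (by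
      intro x hx
      simp only [List.mem_cons, List.not_mem_nil, or_false] at hx
      rcases hx with rfl | rfl | rfl | rfl
      · exact hu
      · exact hw
      · exact Wd.dual w
      · exact Wd.dual u)
  rw [← h1] at h2
  have h3 : ptau N [u, w, dual w, dual u] = (tau N u * tau N w) ^ 2 := by
    simp only [ptau, List.map_cons, List.map_nil, List.prod_cons, List.prod_nil, mul_one]
    rw [tau_dual hu, tau_dual hw]
    ring
  rw [h3] at h2
  have h4 : ‖(rep3 N ((u ++ w) ++ dual (u ++ w))).trace‖ ≤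
      (N : ℝ) ^ 3 * (tau N u * tau N w) := by
    have h5 : 0 ≤ (N : ℝ) ^ 3 * (tau N u * tau N w) :=
      mul_nonneg (by positivity) (mul_nonneg (tau_nonneg _) (tau_nonneg _))
    refine le_of_sq_le_sq ?_ h5
    refine h2.trans (le_of_eq ?_)
    ring
  have h5 : (N : ℝ) ^ 3 ≤ (N : ℝ) ^ 3 * (tau N u * tau N w) := by
    refine le_mul_of_one_le_right (by positivity) ?_
    exact one_le_mul_of_one_le_of_one_le (one_le_tau hN _) (one_le_tau hN _)
  conv_lhs => unfold tau
  linarith

lemma tau_mul3 (hN : 0 < N) {x u y : List (ℕ × Bool)} (hx : Wd x) (hu : Wd u) (hy : Wd y) :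
    tau N (x ++ (u ++ y)) ≤ 4 * (N : ℝ) ^ 6 * (tau N x * tau N u * tau N y) := by
  refine (tau_mul hN hx (hu.append hy)).trans ?_
  have h1 := tau_mul hN hu hy
  have h0 := tau_nonneg (N := N) x
  calc 2 * (N : ℝ) ^ 3 * (tau N x * tau N (u ++ y))
      ≤ 2 * (N : ℝ) ^ 3 * (tau N x * (2 * (N : ℝ) ^ 3 * (tau N u * tau N y))) := by gcongr
    _ = _ := by ring

/-! ### the inverse -/

/-- the letter with the generators exchanged -/
def fl (l : ℕ × Bool) : ℕ × Bool := (1 - l.1, l.2)

lemma Dl_g3 {l : ℕ × Bool} (hl : l.1 < 2) : Dl N * g3 N l = g3 N (fl l) * Dl N := by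
  obtain ⟨k, b⟩ := l
  have hk : k = 0 ∨ k = 1 := by simp only at hl; omega
  rcases hk with rfl | rfl <;> cases b
  · simpa [g3, fl] using Dl_Q12 (N := N)
  · simpa [g3, fl] using Dl_P12 (N := N)
  · simpa [g3, fl] using Dl_Q23 (N := N)
  · simpa [g3, fl] using Dl_P23 (N := N)

lemma Dl_rep3 {w : List (ℕ × Bool)} (hw : Wd w) :
    Dl N * rep3 N w = rep3 N (w.map fl) * Dl N := by
  induction w with
  | nil => simp [rep3_nil]
  | cons l w ih =>
    rw [List.map_cons, rep3_cons, rep3_cons, ← mul_assoc, Dl_g3 (hw l List.mem_cons_self),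
      mul_assoc, ih fun x hx => hw x (List.mem_cons_of_mem _ hx), mul_assoc]

lemma map_fl_fl {w : List (ℕ × Bool)} (hw : Wd w) : (w.map fl).map fl = w := by
  rw [List.map_map]
  conv_rhs => rw [← List.map_id w]
  refine List.map_congr_left fun l hl => ?_
  have := hw l hl
  obtain ⟨k, b⟩ := l
  simp only at this
  simp only [Function.comp_apply, id, fl]
  have : 1 - (1 - k) = k := by omega
  rw [this]

lemma Wd.fl (w : List (ℕ × Bool)) : Wd (w.map fl) := by
  intro l hl
  rw [List.mem_map] at hl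
  obtain ⟨a, -, rfl⟩ := hl
  unfold Ins.fl
  dsimp only
  omega

lemma dual_eq (w : List (ℕ × Bool)) : dual w = (winv w).map fl := by
  unfold Pool.Agent.W715.VC.dual winv
  rw [List.map_reverse, List.map_map]
  rfl

lemma dual_winv (w : List (ℕ × Bool)) : dual (winv w) = w.map fl := by
  unfold Pool.Agent.W715.VC.dual winv
  rw [List.map_reverse, List.reverse_reverse, List.map_map]
  refine List.map_congr_left fun l _ => ?_
  obtain ⟨k, b⟩ := l
  simp [dl, fl]

/-- the inverse braid has the same bound -/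
lemma tau_inv {w : List (ℕ × Bool)} (hw : Wd w) : tau N (winv w) = tau N w := by
  unfold tau
  congr 2
  rw [rep3_append, rep3_append, dual_winv, dual_eq]
  set D := Dl N with hD
  set E := on12 (QQ N) * on23 (QQ N) * on12 (QQ N) with hE
  set W := rep3 N w with hW
  set W' := rep3 N (winv w) with hW'
  set G := rep3 N (w.map fl) with hG
  set F := rep3 N ((winv w).map fl) with hF
  have hED : E * D = 1 := Pool.Agent.R807.HolderLim.Dl_inv
  have hDE : D * E = 1 := mul_eq_one_comm.1 hED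
  have h1 : D * W = G * D := Dl_rep3 hw
  have h2 : D * F = W' * D := by
    have := Dl_rep3 (N := N) (Wd.fl (winv w))
    rwa [map_fl_fl hw.inv] at this
  have h3 : G = D * W * E := by rw [h1, mul_assoc, hDE, mul_one]
  have h4 : F = E * (W' * D) := by rw [← h2, ← mul_assoc, hED, one_mul]
  calc (W' * G).trace = ((W' * D) * (W * E)).trace := by rw [h3]; simp only [mul_assoc]
    _ = ((W * E) * (W' * D)).trace := Matrix.trace_mul_comm _ _
    _ = (W * F).trace := by rw [h4]; simp only [mul_assoc]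

/-- **the lower bound after an insertion** -/
lemma tau_ge (hN : 0 < N) {x u y : List (ℕ × Bool)} (hx : Wd x) (hu : Wd u) (hy : Wd y) :
    tau N u ≤ 4 * (N : ℝ) ^ 6 * (tau N x * tau N y) * tau N (x ++ (u ++ y)) := by
  have h1 : rep3 N u = rep3 N (winv x ++ ((x ++ (u ++ y)) ++ winv y)) := by
    simp only [rep3_append]
    have e1 := rep3_winv (N := N) x
    have e2 : rep3 N y * rep3 N (winv y) = 1 := mul_eq_one_comm.1 (rep3_winv (N := N) y)
    calc rep3 N u = (rep3 N (winv x) * rep3 N x) * rep3 N u * (rep3 N y * rep3 N (winv y)) := by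
          rw [e1, e2, one_mul, mul_one]
      _ = _ := by noncomm_ring
  have hxuy : Wd (x ++ (u ++ y)) := hx.append (hu.append hy)
  rw [tau_congr hN hu (hx.inv.append (hxuy.append hy.inv)) h1]
  refine (tau_mul3 hN hx.inv hxuy hy.inv).trans (le_of_eq ?_)
  rw [tau_inv hx, tau_inv hy]
  ring

/-! ### half twists -/

lemma hadj_unit {T : M3 N} (h : ∀ z y : I3 N → ℂ, Hf (T *ᵥ z) (T *ᵥ y) = Hf z y) :
    hadj T * T = 1 := by
  have key : ∀ z : I3 N → ℂ, (hadj T * T) *ᵥ z = z := by
    intro z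
    have h1 : (hadj T * T) *ᵥ z - z = 0 := by
      refine Hf_nondeg fun y => ?_
      have e : Hf ((hadj T * T) *ᵥ z - z) y = Hf ((hadj T * T) *ᵥ z) y - Hf z y := by
        simp [Hf, sub_mul, Finset.sum_sub_distrib]
      rw [e, ← Matrix.mulVec_mulVec, Hf_adj, hadj_hadj, h, sub_self]
    exact sub_eq_zero.1 h1
  ext p q
  have h2 := congrFun (key (Pi.single q 1)) p
  rw [Matrix.mulVec_single_one] at h2
  rw [Matrix.one_apply]
  have h3 : (hadj T * T) p q = (Pi.single q (1 : ℂ) : I3 N → ℂ) p := h2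
  rw [h3, Pi.single_apply]

lemma Wd.htw (k : ℤ) : Wd (htw k) := by
  have h : ∀ (m : ℕ) (b : Bool), Wd (List.replicate m [((0, b) : ℕ × Bool), (1, b), (0, b)]).flatten := by
    intro m b l hl
    rw [List.mem_flatten] at hl
    obtain ⟨s, hs, hl⟩ := hl
    rw [List.eq_of_mem_replicate hs] at hl
    simp only [List.mem_cons, List.not_mem_nil, or_false] at hl
    rcases hl with rfl | rfl | rfl <;> norm_num
  cases k with
  | ofNat k => exact h k true
  | negSucc k => exact h (k + 1) false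

lemma tau_htw (hN : 0 < N) (k : ℤ) {w : List (ℕ × Bool)} (hw : Wd w) :
    tau N (htw k ++ w) = tau N w := by
  unfold tau
  congr 2
  rw [rep3_append (htw k ++ w), rep3_append w (dual w), ← hadj_rep3 hN ((Wd.htw k).append hw),
    ← hadj_rep3 hN hw, rep3_append, hadj_mul]
  set T := rep3 N (htw k)
  have h1 : hadj T * T = 1 := hadj_unit (unit_htw hN k)
  calc (T * rep3 N w * (hadj (rep3 N w) * hadj T)).trace
      = (T * (rep3 N w * (hadj (rep3 N w) * hadj T))).trace := by rw [mul_assoc]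
    _ = ((rep3 N w * (hadj (rep3 N w) * hadj T)) * T).trace := Matrix.trace_mul_comm _ _
    _ = (rep3 N w * hadj (rep3 N w) * (hadj T * T)).trace := by simp only [mul_assoc]
    _ = _ := by rw [h1, mul_one]

lemma tau_htw' (hN : 0 < N) (k : ℤ) {w : List (ℕ × Bool)} (hw : Wd w) :
    tau N (w ++ htw k) = tau N w := by
  unfold tau
  congr 2
  rw [rep3_append (w ++ htw k), rep3_append w (dual w), ← hadj_rep3 hN (hw.append (Wd.htw k)),
    ← hadj_rep3 hN hw, rep3_append, hadj_mul]
  set T := rep3 N (htw k)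
  have h1 : T * hadj T = 1 := mul_eq_one_comm.1 (hadj_unit (unit_htw hN k))
  calc (rep3 N w * T * (hadj T * hadj (rep3 N w))).trace
      = (rep3 N w * (T * hadj T) * hadj (rep3 N w)).trace := by simp only [mul_assoc]
    _ = _ := by rw [h1, mul_one]

/-! ### powers of reflective braids -/

lemma rep3_pal (hN : 0 < N) {R : List (ℕ × Bool)} (hR : Wd R) (n : ℕ) :
    rep3 N (dual (wpow (R ++ dual R) n)) = rep3 N (wpow (R ++ dual R) n) := by
  have hp : Wd (R ++ dual R) := hR.append (Wd.dual R)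
  rw [← hadj_rep3 hN (hp.pow n), rep3_wpow, hadj_pow, hadj_rep3 hN hp, dual_append, dual_dual hR]

lemma tau_pal (hN : 0 < N) {R : List (ℕ × Bool)} (hR : Wd R) (n : ℕ) :
    tau N (wpow (R ++ dual R) n) =
      ‖(rep3 N (wpow (R ++ dual R) (2 * n))).trace‖ + (N : ℝ) ^ 3 := by
  unfold tau
  rw [rep3_append, rep3_pal hN hR, rep3_wpow, rep3_wpow, ← pow_add, two_mul]

lemma tau_pal_le (hN : 0 < N) {R : List (ℕ × Bool)} (hR : Wd R) {n : ℕ} (hn : n ≠ 0) :
    tau N (wpow (R ++ dual R) n) ≤ 2 * (N : ℝ) ^ 3 * tau N R ^ (2 * n) := by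
  rw [tau_pal hN hR]
  have h1 := (trace_bounds hN hR (n := 2 * n) (by omega)).1
  have h2 : (1 : ℝ) ≤ tau N R ^ (2 * n) := one_le_pow₀ (one_le_tau hN R)
  have h3 : (N : ℝ) ^ 3 ≤ (N : ℝ) ^ 3 * tau N R ^ (2 * n) := le_mul_of_one_le_right (by positivity) h2
  have h4 : tau N R = ‖(rep3 N (R ++ dual R)).trace‖ + (N : ℝ) ^ 3 := rfl
  rw [← h4] at h1
  linarith

lemma tau_pal_ge (hN : 0 < N) {R : List (ℕ × Bool)} (hR : Wd R) {n : ℕ} (hn : n ≠ 0) :
    ‖(rep3 N (R ++ dual R)).trace‖ ^ (2 * n) ≤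
      (N : ℝ) ^ (6 * n) * tau N (wpow (R ++ dual R) n) := by
  rw [tau_pal hN hR]
  have h1 := (trace_bounds hN hR (n := 2 * n) (by omega)).2
  have hN0 : (0 : ℝ) < N := by exact_mod_cast hN
  rw [div_pow, div_le_iff₀ (by positivity)] at h1
  refine h1.trans (le_of_eq ?_)
  rw [← pow_mul]
  have e : 3 * (2 * n) = 6 * n := by ring
  rw [e]
  ring

/-! ### all 3-braids -/

lemma Eig_pow {B : M3 N} {lam : ℂ} {m : ℕ} (h : Eig B lam m) (n : ℕ) : Eig (B ^ n) (lam ^ n) m := by
  obtain ⟨x, h0, h1, h2⟩ := h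
  refine ⟨x, h0, h1, ?_⟩
  induction n with
  | zero => simp
  | succ n ih =>
    rw [pow_succ', ← Matrix.mulVec_mulVec, ih, Matrix.mulVec_smul, h2, smul_smul, pow_succ]

/-- **the trace of an arbitrary 3-braid is bounded by the reflective doubles of its powers** -/
theorem trace_stable (hN : 0 < N) {w : List (ℕ × Bool)} (hw : Wd w) {n : ℕ} (hn : n ≠ 0) :
    ‖(rep3 N w).trace‖ ^ (2 * n) ≤ (N : ℝ) ^ (6 * n) * tau N (wpow w n) := by
  set B := rep3 N w with hB
  set C := tau N (wpow w n) with hC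
  have hC1 : 1 ≤ C := one_le_tau hN _
  have hcard : B.charpoly.roots.card = N ^ 3 := by
    rw [card_roots' B]
    simp only [I3, Fintype.card_prod, Fintype.card_fin]
    ring
  set r : ℝ := C ^ ((2 * n : ℕ) : ℝ)⁻¹ with hr
  have hr0 : 0 ≤ r := Real.rpow_nonneg (by linarith) _
  have hrn : r ^ (2 * n) = C := Real.rpow_inv_natCast_pow (by linarith) (by omega)
  have h1 : ∀ a ∈ B.charpoly.roots, ‖a‖ ≤ r := by
    intro a ha
    obtain ⟨m, hm⟩ := eig_of_root (good_rep3 _) ha
    have h2 := Eig_pow hm n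
    rw [← rep3_wpow] at h2
    have h3 := eig_gen hN hC1 (fun m hm h2 z hz => step hN (hw.pow n) hm h2 hz) h2
    rw [norm_pow, ← pow_mul, mul_comm n 2, ← hrn] at h3
    exact le_of_pow_le_pow_left₀ (by omega) hr0 h3
  have h2 := norm_sum_le B.charpoly.roots h1 1
  simp only [pow_one, Multiset.map_id'] at h2
  rw [← Matrix.trace_eq_sum_roots_charpoly B, hcard] at h2
  have h3 := pow_le_pow_left₀ (norm_nonneg _) h2 (2 * n)
  refine h3.trans (le_of_eq ?_)
  rw [mul_pow, hrn]
  push_cast
  rw [← pow_mul]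
  have e : 3 * (2 * n) = 6 * n := by ring
  rw [e]

end Pool.Agent.U476.Ins
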