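import Pool.Agent.U476.Ins

/-!
Insertions of 3-braids: growth.
-/

set_option autoImplicit false

namespace Pool.Agent.U476.Ins

open Matrix Finset Filter Topology Pool.Agent.H550R3.Jones
open Pool.Agent.W715.VC Pool.Agent.R807.Holder Pool.Agent.U476.Gr
open Pool.Agent.W719.BX (uA)
open scoped Real

/-- the bound of the insertion -/
lemma UB_tau {w : List (ℕ × Bool)} {g : ℝ} (hg : 0 ≤ g)
    (h : UB (fun N => ‖(rep3 N (w ++ dual w)).trace‖) g) : UB (fun N => tau N w) g := by
  refine (h.add_poly hg 1 3).mono ?_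
  filter_upwards with N
  unfold tau
  rw [one_mul]

lemma UB_mul {u w : List (ℕ × Bool)} (hu : Wd u) (hw : Wd w) {g h : ℝ}
    (h1 : UB (fun N => tau N u) g) (h2 : UB (fun N => tau N w) h) :
    UB (fun N => tau N (u ++ w)) (g + h) := by
  have h3 := (UB.poly 2 3).mul (h1.mul h2 (fun N => tau_nonneg w))
    (fun N => mul_nonneg (tau_nonneg u) (tau_nonneg w))
  refine (h3.rate (by linarith)).mono ?_
  filter_upwards [eventually_gt_atTop 0] with N hN
  exact tau_mul hN hu hw

/-- **the upper bound** -/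
theorem upper {u x y : List (ℕ × Bool)} (hu : Wd u) (hx : Wd x) (hy : Wd y) {U gx gy : ℝ}
    (hU : UB (fun N => tau N u) U) (hgx : UB (fun N => tau N x) gx) (hgy : UB (fun N => tau N y) gy)
    {k : ℕ} (hk : k ≠ 0) :
    UB (fun N => ‖(rep3 N (wpow ((x ++ (u ++ y)) ++ dual (x ++ (u ++ y))) k)).trace‖)
      (k * (U + gx + gy)) := by
  set w := x ++ (u ++ y) with hw
  have hwW : Wd w := hx.append (hu.append hy)
  have a2 := (UB.poly 4 6).mul ((hgx.mul hU fun N => tau_nonneg u).mul hgy
    fun N => tau_nonneg y) (fun N => mul_nonneg (mul_nonneg (tau_nonneg x)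
      (tau_nonneg u)) (tau_nonneg y))
  have h0 : ∀ N : ℕ, 0 ≤ 4 * (N : ℝ) ^ 6 * (tau N x * tau N u * tau N y) := by
    intro N
    have h1 := tau_nonneg (N := N) x
    have h2 := tau_nonneg (N := N) y
    have h3 := tau_nonneg (N := N) u
    positivity
  have a4 := (UB.poly 1 3).mul (a2.pow h0 k) (fun N => pow_nonneg (h0 N) k)
  refine (a4.rate (le_of_eq (by ring))).mono ?_
  filter_upwards [eventually_gt_atTop 0] with N hN
  refine (trace_bounds hN hwW hk).1.trans ?_
  have e : ‖(rep3 N (w ++ dual w)).trace‖ + (N : ℝ) ^ 3 = tau N w := rfl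
  rw [e, one_mul]
  refine mul_le_mul_of_nonneg_left ?_ (by positivity)
  exact pow_le_pow_left₀ (tau_nonneg w) (tau_mul3 hN hx hu hy) k

/-- **the lower bound** -/
theorem lower {u x y : List (ℕ × Bool)} (hu : Wd u) (hx : Wd x) (hy : Wd y) {U gx gy : ℝ}
    (hU : LB (fun N => tau N u) U)
    (hgx : UB (fun N => tau N x) gx) (hgy : UB (fun N => tau N y) gy)
    {k : ℕ} (hk : k ≠ 0) (hpos : gx + gy < U) :
    LB (fun N => ‖(rep3 N (wpow ((x ++ (u ++ y)) ++ dual (x ++ (u ++ y))) k)).trace‖)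
      (k * (U - gx - gy)) := by
  set w := x ++ (u ++ y) with hw
  have hwW : Wd w := hx.append (hu.append hy)
  have hk0 : (0 : ℝ) < k := by exact_mod_cast Nat.pos_of_ne_zero hk
  have a2 := hU.div (f := fun N => tau N w) ((UB.poly 4 6).mul (hgx.mul hgy fun N => tau_nonneg y)
    (fun N => mul_nonneg (tau_nonneg x) (tau_nonneg y))) (by
      filter_upwards [eventually_gt_atTop 0] with N hN
      have h0 : (0 : ℝ) < N := by exact_mod_cast hN
      have h1 := one_le_tau hN x
      have h2 := one_le_tau hN y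
      have h3 : 0 < tau N x * tau N y := by nlinarith
      positivity) (by
      filter_upwards [eventually_gt_atTop 0] with N hN
      exact tau_ge hN hx hu hy)
  have hg : (0 : ℝ) < U - (0 + (gx + gy)) := by linarith
  have a3 : LB (fun N => ‖(rep3 N (w ++ dual w)).trace‖) (U - (0 + (gx + gy))) := by
    refine a2.sub_poly hg 1 3 ?_
    filter_upwards with N
    unfold tau
    rw [one_mul]
  have a4 : LB (fun N => ‖(rep3 N (wpow (w ++ dual w) k)).trace‖ + 1 * (N : ℝ) ^ 3)
      (k * (U - (0 + (gx + gy))) - 0) := by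
    refine (a3.pow k).div (UB.poly 1 (3 * k)) ?_ ?_
    · filter_upwards [eventually_gt_atTop 0] with N hN
      have : (0 : ℝ) < N := by exact_mod_cast hN
      positivity
    · filter_upwards [eventually_gt_atTop 0] with N hN
      have h1 := (trace_bounds hN hwW hk).2
      have hN0 : (0 : ℝ) < N := by exact_mod_cast hN
      rw [div_pow, div_le_iff₀ (by positivity)] at h1
      refine h1.trans (le_of_eq ?_)
      rw [← pow_mul]
      ring
  have e : (k : ℝ) * (U - gx - gy) = k * (U - (0 + (gx + gy))) - 0 := by ring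
  rw [e]
  refine a4.sub_poly ?_ 1 3 (Eventually.of_forall fun N => le_rfl)
  rw [sub_zero]
  exact mul_pos hk0 hg

/-! ### cyclic covers -/

lemma UB_pal {R : List (ℕ × Bool)} (hR : Wd R) {V : ℝ} (hV : UB (fun N => tau N R) V)
    {n : ℕ} (hn : n ≠ 0) : UB (fun N => tau N (wpow (R ++ dual R) n)) (2 * n * V) := by
  have a1 : UB (fun N => tau N R ^ (2 * n)) ((2 * n : ℕ) * V) := hV.pow (fun N => tau_nonneg R) _
  have a2 := (UB.poly 2 3).mul a1 (fun N => pow_nonneg (tau_nonneg R) _)
  refine (a2.rate (le_of_eq (by push_cast; ring))).mono ?_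
  filter_upwards [eventually_gt_atTop 0] with N hN
  exact tau_pal_le hN hR hn

lemma LB_pal {R : List (ℕ × Bool)} (hR : Wd R) {V : ℝ}
    (hV : LB (fun N => ‖(rep3 N (R ++ dual R)).trace‖) V)
    {n : ℕ} (hn : n ≠ 0) : LB (fun N => tau N (wpow (R ++ dual R) n)) (2 * n * V) := by
  have a1 : LB (fun N => tau N (wpow (R ++ dual R) n)) ((2 * n : ℕ) * V - 0) := by
    refine (hV.pow (2 * n)).div (UB.poly 1 (6 * n)) ?_ ?_
    · filter_upwards [eventually_gt_atTop 0] with N hN
      have : (0 : ℝ) < N := by exact_mod_cast hN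
      positivity
    · filter_upwards [eventually_gt_atTop 0] with N hN
      rw [one_mul]
      exact tau_pal_ge hN hR hn
  have e : (2 : ℝ) * n * V = (2 * n : ℕ) * V - 0 := by push_cast; ring
  rw [e]
  exact a1

/-- **from a cyclic cover down** -/
theorem cover_down {R : List (ℕ × Bool)} (hR : Wd R) {V : ℝ} (hV : 0 < V) {n : ℕ} (hn : n ≠ 0)
    (h : Tendsto (fun N : ℕ => 2 * π * (Real.log ‖(rep3 N (wpow (R ++ dual R) n)).trace‖ / N)) atTop
      (𝓝 (n * V))) :
    Tendsto (fun N : ℕ => 2 * π * (Real.log ‖(rep3 N (R ++ dual R)).trace‖ / N)) atTop (𝓝 V) := by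
  have hn0 : (0 : ℝ) < n := by exact_mod_cast Nat.pos_of_ne_zero hn
  have hnV : 0 < n * V := mul_pos hn0 hV
  have h1 := UB.of_tendsto (fun N => norm_nonneg _) h
  have h2 := LB.of_tendsto (fun N => norm_nonneg _) hnV h
  have h3 : UB (fun N => ‖(rep3 N (R ++ dual R)).trace‖) V := by
    refine UB.root hn ?_
    have a := (UB.poly 1 (3 * n)).mul (h1.add_poly hnV.le 1 3) (fun N => by positivity)
    refine (a.rate (le_of_eq (by ring))).mono ?_
    filter_upwards [eventually_gt_atTop 0] with N hN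
    have g1 := (trace_bounds hN hR hn).2
    have hN0 : (0 : ℝ) < N := by exact_mod_cast hN
    rw [div_pow, div_le_iff₀ (by positivity)] at g1
    refine g1.trans (le_of_eq ?_)
    rw [← pow_mul]
    ring
  have h4 : LB (fun N => tau N R) V := by
    refine LB.root hn (fun N => tau_nonneg R) ?_
    have a : LB (fun N => tau N R ^ n) (n * V - 0) := by
      refine h2.div (UB.poly 1 3) ?_ ?_
      · filter_upwards [eventually_gt_atTop 0] with N hN
        have : (0 : ℝ) < N := by exact_mod_cast hN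
        positivity
      · filter_upwards [eventually_gt_atTop 0] with N hN
        rw [one_mul]
        exact (trace_bounds hN hR hn).1
    rwa [sub_zero] at a
  have h5 : LB (fun N => ‖(rep3 N (R ++ dual R)).trace‖) V := by
    refine h4.sub_poly hV 1 3 ?_
    filter_upwards with N
    unfold tau
    rw [one_mul]
  exact tendsto_of hV.le (fun N => norm_nonneg _) h3 h5

/-! ### the cost of a word -/

lemma trace_nil (N : ℕ) : ‖(rep3 N []).trace‖ = (N : ℝ) ^ 3 := by
  rw [rep3_nil, Matrix.trace_one]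
  simp only [I3, Fintype.card_prod, Fintype.card_fin]
  push_cast
  rw [norm_mul, norm_mul, Complex.norm_natCast]
  ring

lemma UB_syl {V : ℕ → ℝ} (hV : ∀ a, 1 ≤ a → Pool.Agent.R807.HolderLim.GrowthLe (V a) a)
    (s : List (ℕ × Bool × ℕ)) (hs : ∀ x ∈ s, x.1 < 2 ∧ 1 ≤ x.2.2) :
    UB (fun N => tau N (s.map Pool.Agent.R807.HolderLim.syl).flatten)
      (s.map fun x => V x.2.2).sum := by
  induction s with
  | nil =>
    have : UB (fun N : ℕ => 2 * (N : ℝ) ^ 3) 0 := UB.poly 2 3
    refine this.mono ?_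
    filter_upwards with N
    simp only [List.map_nil, List.flatten_nil]
    unfold tau
    rw [List.nil_append]
    have e : dual [] = [] := rfl
    rw [e, trace_nil]
    linarith
  | cons x s ih =>
    have h1 := ih fun y hy => hs y (List.mem_cons_of_mem _ hy)
    obtain ⟨h2, h3⟩ := hs x List.mem_cons_self
    have hx : Wd (Pool.Agent.R807.HolderLim.syl x) :=
      Pool.Agent.R807.HolderLim.hu_rep (l := (x.1, x.2.1)) h2 _
    have hsW : Wd (s.map Pool.Agent.R807.HolderLim.syl).flatten := by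
      intro l hl
      rw [List.mem_flatten] at hl
      obtain ⟨t, ht, hl⟩ := hl
      rw [List.mem_map] at ht
      obtain ⟨y, hy, rfl⟩ := ht
      exact Pool.Agent.R807.HolderLim.hu_rep (l := (y.1, y.2.1))
        (hs y (List.mem_cons_of_mem _ hy)).1 _ l hl
    have h4 : UB (fun N => tau N (Pool.Agent.R807.HolderLim.syl x)) (V x.2.2) := by
      intro ε hε
      filter_upwards [hV _ h3 ε hε] with N h5
      have e : tau N (Pool.Agent.R807.HolderLim.syl x) = tau N (uA x.2.2) :=
        Pool.Agent.R807.HolderLim.tau_syl (l := (x.1, x.2.1)) h2 _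
      rw [e]
      exact h5
    have h5 := UB_mul hx hsW h4 h1
    simp only [List.map_cons, List.flatten_cons, List.sum_cons]
    exact h5

lemma syl_Wd {s : List (ℕ × Bool × ℕ)} (hs : ∀ x ∈ s, x.1 < 2 ∧ 1 ≤ x.2.2) :
    Wd (s.map Pool.Agent.R807.HolderLim.syl).flatten := by
  intro l hl
  rw [List.mem_flatten] at hl
  obtain ⟨t, ht, hl⟩ := hl
  rw [List.mem_map] at ht
  obtain ⟨y, hy, rfl⟩ := ht
  exact Pool.Agent.R807.HolderLim.hu_rep (l := (y.1, y.2.1)) (hs y hy).1 _ l hl

/-- with half twists -/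
lemma UB_syl_htw {V : ℕ → ℝ} (hV : ∀ a, 1 ≤ a → Pool.Agent.R807.HolderLim.GrowthLe (V a) a)
    (s : List (ℕ × Bool × ℕ)) (hs : ∀ x ∈ s, x.1 < 2 ∧ 1 ≤ x.2.2) (k : ℤ) :
    UB (fun N => tau N (htw k ++ (s.map Pool.Agent.R807.HolderLim.syl).flatten))
      (s.map fun x => V x.2.2).sum := by
  refine (UB_syl hV s hs).mono ?_
  filter_upwards [eventually_gt_atTop 0] with N hN
  rw [tau_htw hN k (syl_Wd hs)]

/-! ### the base -/

lemma norm_syl {l : ℕ × Bool} (hl : l.1 < 2) (a N : ℕ) :
    ‖(rep3 N (List.replicate a l ++ dual (List.replicate a l))).trace‖ =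
      ‖(rep3 N (uA a ++ dual (uA a))).trace‖ := by
  have h := Pool.Agent.R807.HolderLim.tau_syl (N := N) hl a
  unfold tau at h
  linarith

lemma base_one : Tendsto (fun N : ℕ => 2 * π * (Real.log ‖(rep3 N (uA 1 ++ dual (uA 1))).trace‖ / N))
    atTop (𝓝 (8 * GapVol.lob (π / 6))) := by
  refine (Pool.Agent.H112R4.VL.taskD Pool.Agent.H112R4.VL.taskB
    Pool.Agent.H8R3.VL.taskC).congr' ?_
  filter_upwards [eventually_gt_atTop 0] with N hN
  have h4 : uA 1 ++ dual (uA 1) = [(0, true), (1, false)] := rfl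
  rw [h4, Pool.Agent.W715.VC.trace_base hN, Complex.norm_real, Real.norm_eq_abs, abs_of_nonneg]
  · ring
  · exact Finset.sum_nonneg (fun n _ => by positivity)

lemma base_two : Tendsto (fun N : ℕ => 2 * π * (Real.log ‖(rep3 N (uA 2 ++ dual (uA 2))).trace‖ / N))
    atTop (𝓝 (16 * GapVol.lob (π / 4))) := by
  refine Pool.Agent.R807.AxSq.trace_growth.congr fun N => ?_
  ring

open Pool.Agent.W719.BX in
lemma base_four {a : ℕ} (ha : 4 ≤ a) : ∃ V : ℝ,
    IsGreatest {W : ℝ | ∃ w, bAngleN a 1 w ∧ bvolN a 1 w = W} V ∧ 0 < V ∧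
    Tendsto (fun N : ℕ => 2 * π * (Real.log ‖(rep3 N (uA a ++ dual (uA a))).trace‖ / N))
      atTop (𝓝 V) := by
  obtain ⟨V, h1, h2, h3⟩ := mainN ha le_rfl
  have h4 := Pool.Agent.R807.HolderLim.lob_six_pos
  refine ⟨V, h1, ?_, ?_⟩
  · rw [Nat.cast_one, one_mul] at h2
    linarith
  · refine h3.congr' ?_
    filter_upwards with N
    rw [rep3_wpow, pow_one]
    ring

end Pool.Agent.U476.Ins
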